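import Mathlib
import Pool.Agent.N718.GC.Stm

/-!
# Properties of the symbols (project GC of helper718, part KAP)
-/

set_option autoImplicit false
set_option linter.all false

namespace Pool.Agent.N539.GC

open Finset Pool.Agent.N718.DC Pool.Agent.N718.GC

/-- the part coprime to `M` of a natural number, over a set of primes -/
noncomputable def cp (M n : ℕ) : ℕ :=
  ∏ p ∈ n.primeFactors.filter (fun p => ¬ p ∣ M), p ^ padicValNat p n

theorem cop_eq (M : ℕ) (F : ℤ) : cop M F = cp M F.natAbs := rfl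

theorem cp_ext {M n : ℕ} {S : Finset ℕ} (hS : n.primeFactors ⊆ S) (hn : n ≠ 0)
    (hp : ∀ p ∈ S, p.Prime) :
    cp M n = ∏ p ∈ S.filter (fun p => ¬ p ∣ M), p ^ padicValNat p n := by
  unfold cp
  refine Finset.prod_subset ?_ ?_
  · exact Finset.filter_subset_filter _ hS
  · intro p hpS hpn
    rw [Finset.mem_filter] at hpS hpn
    have hpp := hp p hpS.1
    have : ¬ p ∣ n := by
      intro h
      exact hpn ⟨Nat.mem_primeFactors.2 ⟨hpp, h, hn⟩, hpS.2⟩
    rw [padicValNat.eq_zero_of_not_dvd this, pow_zero]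

theorem cp_mul (M : ℕ) {n m : ℕ} (hn : n ≠ 0) (hm : m ≠ 0) : cp M (n * m) = cp M n * cp M m := by
  have hp : ∀ p ∈ (n * m).primeFactors, p.Prime := fun p h => Nat.prime_of_mem_primeFactors h
  rw [cp_ext (M := M) (n := n) (Nat.primeFactors_mono (dvd_mul_right n m) (mul_ne_zero hn hm)) hn hp,
    cp_ext (M := M) (n := m) (Nat.primeFactors_mono (dvd_mul_left m n) (mul_ne_zero hn hm)) hm hp,
    ← Finset.prod_mul_distrib]
  unfold cp
  refine Finset.prod_congr rfl ?_
  intro p h
  rw [Finset.mem_filter] at h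
  haveI : Fact p.Prime := ⟨hp p h.1⟩
  rw [padicValNat.mul hn hm, pow_add]

theorem cp_ne_zero (M n : ℕ) : cp M n ≠ 0 := by
  unfold cp
  refine Finset.prod_ne_zero_iff.2 ?_
  intro p h
  rw [Finset.mem_filter] at h
  exact pow_ne_zero _ (Nat.prime_of_mem_primeFactors h.1).ne_zero

theorem cp_not_dvd {M n q : ℕ} (hq : q.Prime) (hqM : q ∣ M) : ¬ q ∣ cp M n := by
  intro h
  unfold cp at h
  obtain ⟨p, hp, hd⟩ := (hq.prime.dvd_finset_prod_iff _).1 h
  rw [Finset.mem_filter] at hp
  have := (Nat.prime_dvd_prime_iff_eq hq (Nat.prime_of_mem_primeFactors hp.1)).1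
    (hq.dvd_of_dvd_pow hd)
  subst this
  exact hp.2 hqM

/-- the part composed of the primes of `M` -/
noncomputable def up (M n : ℕ) : ℕ := ∏ p ∈ M.primeFactors, p ^ padicValNat p n

theorem up_mul_cp {M n : ℕ} (hM : M ≠ 0) (hn : n ≠ 0) : up M n * cp M n = n := by
  have hp : ∀ p ∈ n.primeFactors ∪ M.primeFactors, p.Prime := by
    intro p h
    rcases Finset.mem_union.1 h with h | h
    · exact Nat.prime_of_mem_primeFactors h
    · exact Nat.prime_of_mem_primeFactors h
  rw [cp_ext (M := M) (n := n) (S := n.primeFactors ∪ M.primeFactors) Finset.subset_union_left hn hp]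
  have h1 : up M n = ∏ p ∈ (n.primeFactors ∪ M.primeFactors).filter (fun p => p ∣ M),
      p ^ padicValNat p n := by
    unfold up
    congr 1
    ext p
    simp only [Finset.mem_filter, Finset.mem_union, Nat.mem_primeFactors]
    constructor
    · rintro ⟨h1, h2, h3⟩
      exact ⟨Or.inr ⟨h1, h2, h3⟩, h2⟩
    · rintro ⟨h | h, h2⟩
      · exact ⟨h.1, h2, hM⟩
      · exact h
  rw [h1, Finset.prod_filter_mul_prod_filter_not]
  have h2 : ∏ p ∈ n.primeFactors ∪ M.primeFactors, p ^ padicValNat p n =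
      ∏ p ∈ n.primeFactors, p ^ padicValNat p n := by
    symm
    refine Finset.prod_subset Finset.subset_union_left ?_
    intro p hpS hpn
    have hpp := hp p hpS
    have : ¬ p ∣ n := fun h => hpn (Nat.mem_primeFactors.2 ⟨hpp, h, hn⟩)
    rw [padicValNat.eq_zero_of_not_dvd this, pow_zero]
  rw [h2]
  conv_rhs => rw [← Nat.factorization_prod_pow_eq_self hn]
  rw [Finsupp.prod, Nat.support_factorization]
  refine Finset.prod_congr rfl ?_
  intro p h
  rw [Nat.factorization_def n (Nat.prime_of_mem_primeFactors h)]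

theorem val_up {M n p : ℕ} (hM : M ≠ 0) (hn : n ≠ 0) (hp : p.Prime) (hpM : p ∣ M) :
    padicValNat p (up M n) = padicValNat p n := by
  haveI : Fact p.Prime := ⟨hp⟩
  have h := up_mul_cp hM hn
  have hu : up M n ≠ 0 := by
    intro h0; rw [h0, zero_mul] at h; exact hn h.symm
  have h2 : padicValNat p n = padicValNat p (up M n) + padicValNat p (cp M n) := by
    rw [← padicValNat.mul hu (cp_ne_zero M n), h]
  rw [padicValNat.eq_zero_of_not_dvd (cp_not_dvd hp hpM), add_zero] at h2
  exact h2.symm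

theorem one (M : ℕ) (a : ℤ) (ha : a ≠ 0) (hC : Cont M a) (F F' : ℤ) (hF : 0 < F * F')
    (hd : (M : ℤ) ∣ F - F')
    (hv : ∀ p : ℕ, p.Prime → p ∣ M → padicValNat p (4 * a.natAbs) < padicValNat p M ∧
      ¬ (p : ℤ) ^ (padicValNat p M - padicValNat p (4 * a.natAbs)) ∣ F) : kap M a F = kap M a F' := by
  obtain ⟨hM1, h2M, haM⟩ := hC
  have hM : M ≠ 0 := by omega
  have hF0 : F ≠ 0 := by rintro rfl; simp at hF
  have hF0' : F' ≠ 0 := by rintro rfl; simp at hF
  set A := F.natAbs with hA
  set B := F'.natAbs with hB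
  have hA0 : A ≠ 0 := by rw [hA]; exact Int.natAbs_ne_zero.2 hF0
  have hB0 : B ≠ 0 := by rw [hB]; exact Int.natAbs_ne_zero.2 hF0'
  have hAB : (M : ℤ) ∣ (A : ℤ) - B := by
    rcases pos_and_pos_or_neg_and_neg_of_mul_pos hF with ⟨h1, h2⟩ | ⟨h1, h2⟩
    · have e1 : (A : ℤ) = F := by rw [hA]; exact Int.natAbs_of_nonneg h1.le
      have e2 : (B : ℤ) = F' := by rw [hB]; exact Int.natAbs_of_nonneg h2.le
      rw [e1, e2]; exact hd
    · have e1 : (A : ℤ) = -F := by rw [hA]; exact Int.ofNat_natAbs_of_nonpos h1.le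
      have e2 : (B : ℤ) = -F' := by rw [hB]; exact Int.ofNat_natAbs_of_nonpos h2.le
      rw [e1, e2]
      have : -F - -F' = -(F - F') := by ring
      rw [this]; exact (dvd_neg).2 hd
  have hvA : ∀ p : ℕ, p.Prime → p ∣ M → padicValNat p A + padicValNat p (4 * a.natAbs) <
      padicValNat p M := by
    intro p hp hpM
    haveI : Fact p.Prime := ⟨hp⟩
    obtain ⟨h1, h2⟩ := hv p hp hpM
    by_contra hcon
    push Not at hcon
    apply h2
    have : padicValNat p M - padicValNat p (4 * a.natAbs) ≤ padicValNat p A := by omega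
    have h3 : p ^ (padicValNat p M - padicValNat p (4 * a.natAbs)) ∣ A :=
      (pow_dvd_pow p this).trans pow_padicValNat_dvd
    have h4 := Int.natCast_dvd_natCast.2 h3
    rw [hA] at h4
    rw [Int.dvd_natAbs] at h4
    push_cast at h4
    exact h4
  have hvAB : ∀ p : ℕ, p.Prime → p ∣ M → padicValNat p A = padicValNat p B := by
    intro p hp hpM
    haveI : Fact p.Prime := ⟨hp⟩
    have h1 := hvA p hp hpM
    have hle : ∀ k, k ≤ padicValNat p M → (p ^ k ∣ A ↔ p ^ k ∣ B) := by
      intro k hk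
      have hpM' : ((p ^ k : ℕ) : ℤ) ∣ (A : ℤ) - B :=
        (Int.natCast_dvd_natCast.2 ((pow_dvd_pow p hk).trans pow_padicValNat_dvd)).trans hAB
      rw [← Int.natCast_dvd_natCast, ← Int.natCast_dvd_natCast (n := B)]
      constructor
      · intro h; have := dvd_sub h hpM'; simpa using this
      · intro h; have := dvd_add h hpM'; simpa using this
    have hA1 : padicValNat p A ≤ padicValNat p B := by
      rw [← padicValNat_dvd_iff_le hB0]
      exact (hle _ (by omega)).1 pow_padicValNat_dvd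
    have hB1 : padicValNat p B ≤ padicValNat p A := by
      by_contra hcon
      push Not at hcon
      have h5 : p ^ (padicValNat p A + 1) ∣ B :=
        (pow_dvd_pow p (by omega)).trans pow_padicValNat_dvd
      have h6 := (hle _ (by omega)).2 h5
      rw [padicValNat_dvd_iff_le hA0] at h6
      omega
    omega
  have hup : up M A = up M B := by
    unfold up
    refine Finset.prod_congr rfl ?_
    intro p hp
    rw [hvAB p (Nat.prime_of_mem_primeFactors hp) (Nat.dvd_of_mem_primeFactors hp)]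
  set g := up M A with hg
  have e1 : g * cp M A = A := up_mul_cp hM hA0
  have e2 : g * cp M B = B := by rw [hup]; exact up_mul_cp hM hB0
  have hg0 : g ≠ 0 := by rintro h; rw [h, zero_mul] at e1; exact hA0 e1.symm
  set x := ((cp M A : ℤ) - cp M B).natAbs with hx
  have hMx : M ∣ g * x := by
    have e1z : (g : ℤ) * (cp M A : ℤ) = (A : ℤ) := by exact_mod_cast e1
    have e2z : (g : ℤ) * (cp M B : ℤ) = (B : ℤ) := by exact_mod_cast e2
    have : (M : ℤ) ∣ (g : ℤ) * ((cp M A : ℤ) - cp M B) := by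
      have : (g : ℤ) * ((cp M A : ℤ) - cp M B) = (A : ℤ) - B := by
        linear_combination e1z - e2z
      rw [this]; exact hAB
    have h := Int.natAbs_dvd_natAbs.2 this
    rw [Int.natAbs_mul] at h
    simpa using h
  have hax : 4 * a.natAbs ∣ x := by
    rw [Nat.dvd_iff_prime_pow_dvd_dvd]
    intro p k hp hk
    haveI : Fact p.Prime := ⟨hp⟩
    rcases Nat.eq_zero_or_pos k with rfl | hk0
    · simp
    have ha4 : 4 * a.natAbs ≠ 0 := mul_ne_zero (by norm_num) (Int.natAbs_ne_zero.2 ha)
    have hpa : p ∣ 4 * a.natAbs := (dvd_pow_self p (by omega)).trans hk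
    have hpM : p ∣ M := by
      rcases (Nat.Prime.dvd_mul hp).1 hpa with h | h
      · have : p ∣ 2 ^ 2 := by simpa using h
        have h2 := (Nat.prime_dvd_prime_iff_eq hp Nat.prime_two).1 (hp.dvd_of_dvd_pow this)
        rw [h2]; exact h2M
      · exact haM p hp (by rw [← Int.natCast_dvd] at h; exact h)
    have hk' : k ≤ padicValNat p (4 * a.natAbs) := (padicValNat_dvd_iff_le ha4).1 hk
    have hvg : padicValNat p g = padicValNat p A := val_up hM hA0 hp hpM
    have h1 := hvA p hp hpM
    obtain ⟨g₀, hg₀⟩ : p ^ padicValNat p g ∣ g := pow_padicValNat_dvd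
    have hg₀p : ¬ p ∣ g₀ := by
      rintro ⟨t, ht⟩
      have : p ^ (padicValNat p g + 1) ∣ g := ⟨t, by
        conv_lhs => rw [hg₀, ht]
        ring⟩
      rw [padicValNat_dvd_iff_le hg0] at this
      omega
    have h2 : p ^ (padicValNat p g + k) ∣ g * x :=
      ((pow_dvd_pow p (by omega)).trans (pow_padicValNat_dvd (p := p) (n := M))).trans hMx
    have h3 : p ^ padicValNat p g * p ^ k ∣ p ^ padicValNat p g * (g₀ * x) := by
      rw [← pow_add, ← mul_assoc, ← hg₀]; exact h2
    have h4 : p ^ k ∣ g₀ * x := Nat.dvd_of_mul_dvd_mul_left (pow_pos hp.pos _) h3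
    exact (Nat.Coprime.dvd_of_dvd_mul_left
      (Nat.Coprime.pow_left k ((Nat.Prime.coprime_iff_not_dvd hp).2 hg₀p)) h4)
  have hodd : ∀ n, Odd (cp M n) := by
    intro n
    rw [← Nat.not_even_iff_odd, even_iff_two_dvd]
    exact cp_not_dvd Nat.prime_two h2M
  have hmod : cp M A % (4 * a.natAbs) = cp M B % (4 * a.natAbs) := by
    have : ((4 * a.natAbs : ℕ) : ℤ) ∣ (cp M B : ℤ) - cp M A := by
      rw [Int.natCast_dvd]
      have : ((cp M B : ℤ) - cp M A).natAbs = x := by
        rw [hx, ← Int.natAbs_neg]; congr 1; ring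
      rw [this]; exact hax
    exact (Nat.modEq_iff_dvd).2 this
  unfold kap
  rw [cop_eq, cop_eq, ← hA, ← hB, jacobiSym.mod_right a (hodd A), jacobiSym.mod_right a (hodd B), hmod]

theorem two (M l k : ℕ) (a F : ℤ) (hl : l.Prime) (hlM : ¬ l ∣ M) (hk : 1 ≤ k) (hF : F ≠ 0) :
    kap M a F = jacobiSym a l ^ padicValNat l F.natAbs * kap (M * l ^ k) a F := by
  unfold kap
  rw [cop_eq, cop_eq]
  set n := F.natAbs with hn
  have hn0 : n ≠ 0 := Int.natAbs_ne_zero.2 hF
  have hp : ∀ p ∈ insert l n.primeFactors, p.Prime := by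
    intro p h
    rcases Finset.mem_insert.1 h with h | h
    · rw [h]; exact hl
    · exact Nat.prime_of_mem_primeFactors h
  have hsplit : cp M n = l ^ padicValNat l n * cp (M * l ^ k) n := by
    rw [cp_ext (M := M) (n := n) (S := insert l n.primeFactors) (Finset.subset_insert _ _) hn0 hp,
      cp_ext (M := M * l ^ k) (n := n) (S := insert l n.primeFactors) (Finset.subset_insert _ _) hn0 hp]
    have : (insert l n.primeFactors).filter (fun p => ¬ p ∣ M) =
        insert l ((insert l n.primeFactors).filter (fun p => ¬ p ∣ M * l ^ k)) := by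
      ext p
      simp only [Finset.mem_filter, Finset.mem_insert]
      constructor
      · rintro ⟨h1, h2⟩
        by_cases hpl : p = l
        · exact Or.inl hpl
        · right
          refine ⟨h1, ?_⟩
          intro h
          have hpp : p.Prime := hp p (Finset.mem_insert.2 h1)
          rcases (Nat.Prime.dvd_mul hpp).1 h with h | h
          · exact h2 h
          · exact hpl ((Nat.prime_dvd_prime_iff_eq hpp hl).1 (hpp.dvd_of_dvd_pow h))
      · rintro (h | ⟨h1, h2⟩)
        · exact ⟨Or.inl h, by rw [h]; exact hlM⟩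
        · exact ⟨h1, fun h => h2 (h.mul_right _)⟩
    rw [this, Finset.prod_insert]
    simp only [Finset.mem_filter, Finset.mem_insert]
    rintro ⟨-, h⟩
    exact h ((dvd_pow_self l (by omega)).mul_left M)
  haveI : NeZero (l ^ padicValNat l n) := ⟨pow_ne_zero _ hl.ne_zero⟩
  haveI : NeZero (cp (M * l ^ k) n) := ⟨cp_ne_zero _ _⟩
  rw [hsplit, jacobiSym.mul_right, jacobiSym.pow_right]

theorem kap_ : S_KAP := by
  refine ⟨one, two, ?_, ?_, ?_⟩
  · intro M a F G hF hG
    unfold kap
    rw [cop_eq, cop_eq, cop_eq, Int.natAbs_mul,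
      cp_mul M (Int.natAbs_ne_zero.2 hF) (Int.natAbs_ne_zero.2 hG)]
    haveI : NeZero (cp M F.natAbs) := ⟨cp_ne_zero _ _⟩
    haveI : NeZero (cp M G.natAbs) := ⟨cp_ne_zero _ _⟩
    rw [jacobiSym.mul_right]
  · intro M a F hF h
    unfold kap
    have : cop M F = 1 := by
      unfold cop
      refine Finset.prod_eq_one ?_
      intro p hp
      rw [Finset.mem_filter] at hp
      exact absurd (h p (Nat.prime_of_mem_primeFactors hp.1)
        (Int.natCast_dvd.2 (Nat.dvd_of_mem_primeFactors hp.1))) hp.2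
    rw [this, jacobiSym.one_right]
  · intro M a F ha hF hC
    unfold kap
    apply jacobiSym.eq_one_or_neg_one
    rw [cop_eq]
    by_contra hcon
    obtain ⟨q, hq, hqd⟩ := Nat.exists_prime_and_dvd hcon
    have h1 : (q : ℤ) ∣ a := (Int.natCast_dvd_natCast.2 hqd).trans (Int.gcd_dvd_left _ _)
    have h2 : (q : ℤ) ∣ (cp M F.natAbs : ℤ) := (Int.natCast_dvd_natCast.2 hqd).trans (Int.gcd_dvd_right _ _)
    exact cp_not_dvd hq (hC.2.2 q hq h1) (Int.natCast_dvd_natCast.1 h2)

end Pool.Agent.N539.GC
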